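import Pool.Agent.W353.EF.Main

/-! The order at the edge over fields with symmetric Galois group: the degree condition comes from a
statement on class functions on symmetric groups. -/

set_option autoImplicit false

namespace Pool.Agent.Y328.EF2

open NumberField IsDedekindDomain Filter Topology Polynomial IntermediateField
open scoped TensorProduct
open Pool.Agent.W353.EF

open Classical in
open Pool.Agent.W353.NF Pool.Agent.W353.AB Pool.Agent.W353.SN Pool.Agent.W353.PV in
/-- the orders over a field with symmetric Galois group, from a statement on class functions -/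
theorem sym_of (N n₀ : ℕ)
    (hbig : ∀ (Y : Type) [Fintype Y] [DecidableEq Y], n₀ ≤ Fintype.card Y →
      ∀ θ : Equiv.Perm Y → ℝ, (∀ g u, θ (u * g * u⁻¹) = θ g) → YS θ → (∀ g, |θ g| ≤ (N : ℝ)) →
        Lin θ)
    (K : Type) [Field K] [NumberField K] (n d i : ℕ)
    (X : Set (MvPolynomial (Fin n) (𝓞 K))) (hi : i ≤ 2 * d) :
    SymmetricFields X d i N n₀ := by
  classical
  have hkap : kap 0 = 1 := by
    unfold kap
    rw [if_pos rfl]
  have hsz : ∀ (F : Type) [Field F] [NumberField F] [Algebra K F]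
      (B : HeightOneSpectrum (𝓞 F) → ℂ[X]) (e : Fin 0 → 𝓞 F), IsEulerSystem X d i N B →
      (∀ᶠ ε : ℝ in 𝓝[>] 0, LFun B ((i : ℂ) / 2 + 1 + ε) ≠ 0) ∧
      (syX X d i N).IsSize (F := F) e 0 (size i B) := by
    intro F _ _ _ B e hB
    exact size_X0 hi B hB.1 hB.2 e
  have hlim : ∀ (F : Type) [Field F] [NumberField F] [Algebra K F]
      (B : HeightOneSpectrum (𝓞 F) → ℂ[X]), IsEulerSystem X d i N B →
      ∀ m : ℤ, HasOrder i B m → Tendsto (size i B) (𝓝[>] 0) (𝓝 (-(m : ℝ))) := by
    intro F _ _ _ B hB m hm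
    obtain ⟨Λ, h1, h2, h3⟩ := hm
    exact lim_ord (hsz F B (fun _ => 1) hB).1 h1 (h2.mono fun s hs hs' => hs (by
      have e : ((i : ℂ) / 2 + 1).re = (i : ℝ) / 2 + 1 := by
        simp
      rw [← e]
      exact hs')) h3
  intro F _ _ _ hF hn m hm
  -- the fields of the Young subgroups
  have hyoung : ∀ r : Setoid (F →ₐ[K] AlgebraicClosure K), youngField K F r =
      MH K F (yg r) := fun r => rfl
  have hbot : yg (⊥ : Setoid (F →ₐ[K] AlgebraicClosure K)) = ⊥ := by
    ext g
    rw [mem_yg, Subgroup.mem_bot]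
    constructor
    · intro h
      exact Equiv.ext fun x => (h x).symm
    · intro h x
      rw [h]
      rfl
  have htop : yg (⊤ : Setoid (F →ₐ[K] AlgebraicClosure K)) = ⊤ := by
    ext g
    exact ⟨fun _ => trivial, fun _ _ => trivial⟩
  -- the limits
  have core : ∀ 𝒰 : Ultrafilter ℝ, (𝒰 : Filter ℝ) ≤ 𝓝[>] 0 → ∃ a b : ℤ,
      m ⊥ = -(a + b) ∧
      m ⊤ = -(a + b * (if (∀ h ∈ (⊤ : Subgroup (PX K F)), Equiv.Perm.sign h = 1) then 1
        else 0)) ∧
      |((a + b : ℤ) : ℝ)| ≤ N ∧
      ((∃ h : PX K F, Equiv.Perm.sign h ≠ 1) → |((a - b : ℤ) : ℝ)| ≤ N) ∧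
      ∀ (H : Subgroup (PX K F)) [NumberField (MH K F H)] (Y : ℝ → ℝ),
        (syX X d i N).IsSize (F := MH K F H) (fun _ => 1) 0 Y → Tendsto Y 𝒰
          (𝓝 ((a + b * (if (∀ h ∈ H, Equiv.Perm.sign h = 1) then 1 else 0) : ℤ) : ℝ)) := by
    intro 𝒰 h𝒰
    obtain ⟨θ, hθb, hθc, hθs⟩ := exists_theta (K := K) (F := F) (syX X d i N)
      (syX_real X d i N) hF 0 𝒰 h𝒰
    rw [syX_b, hkap, mul_one] at hθb
    -- sums over the subgroups
    have hsum : ∀ (H : Subgroup (PX K F)) (k : ℤ), OrderOver X d i N (MH K F H) k →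
        ∑ᶠ h : H, θ h = ((-k : ℤ) : ℝ) * Nat.card H := by
      rintro H k ⟨hnf, B, hB, hk⟩
      have h5 := (hlim (MH K F H) B hB k hk).mono_left h𝒰
      have h6 := hθs H _ (hsz (MH K F H) B (fun _ => 1) hB).2
      rw [tendsto_nhds_unique h6 (h5.const_mul (Nat.card H : ℝ))]
      push_cast
      ring
    have hYS : YS θ := by
      intro r
      have h1 := hm r
      rw [hyoung] at h1
      exact ⟨_, hsum (yg r) _ h1⟩
    obtain ⟨a, b, hab⟩ : Lin θ := by
      refine hbig _ ?_ θ (fun g u => hθc g u) hYS hθb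
      have h1 : Fintype.card (F →ₐ[K] AlgebraicClosure K) = Module.finrank K F :=
        AlgHom.card K F (AlgebraicClosure K)
      convert hn
    have hHsum : ∀ H : Subgroup (PX K F), ∑ᶠ h : H, θ h =
        ((a + b * (if (∀ h ∈ H, Equiv.Perm.sign h = 1) then 1 else 0) : ℤ) : ℝ) *
          Nat.card H := by
      intro H
      have h1 := sum_sub H θ a b
      have h2 : ∑ᶠ h : H, (θ h - (a + b * ((Equiv.Perm.sign (h : PX K F) : ℤ) : ℝ))) = 0 := by
        rw [← finsum_zero (α := H)]
        refine finsum_congr fun h => ?_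
        rw [hab, sub_self]
      rw [h2, sum_sign] at h1
      have h3 : ∑ᶠ h : H, θ h = a * Nat.card H + b * (if ∀ h ∈ H, Equiv.Perm.sign h = 1 then
          (Nat.card H : ℝ) else 0) := by linarith
      rw [h3]
      split_ifs <;> push_cast <;> ring
    have hne : ∀ H : Subgroup (PX K F), (Nat.card H : ℝ) ≠ 0 := fun H => by
      exact_mod_cast Nat.card_pos.ne'
    have hord : ∀ (H : Subgroup (PX K F)) (k : ℤ), OrderOver X d i N (MH K F H) k →
        k = -(a + b * (if (∀ h ∈ H, Equiv.Perm.sign h = 1) then 1 else 0)) := by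
      intro H k hk
      have h1 := hsum H k hk
      rw [hHsum] at h1
      have h3 := mul_right_cancel₀ (hne H) h1
      have h4 : a + b * (if (∀ h ∈ H, Equiv.Perm.sign h = 1) then 1 else 0) = -k := by
        exact_mod_cast h3
      rw [h4, neg_neg]
    refine ⟨a, b, ?_, hord ⊤ (m ⊤) (by rw [← htop, ← hyoung]; exact hm ⊤), ?_, ?_, ?_⟩
    · have h1 := hord ⊥ (m ⊥) (by rw [← hbot, ← hyoung]; exact hm ⊥)
      rw [if_pos (fun h hh => by rw [(Subgroup.mem_bot).1 hh, Equiv.Perm.sign_one]),
        mul_one] at h1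
      exact h1
    · have h1 := hθb 1
      rw [hab 1, Equiv.Perm.sign_one] at h1
      push_cast at h1 ⊢
      rwa [mul_one] at h1
    · rintro ⟨g, hg⟩
      have hg' : Equiv.Perm.sign g = -1 := (Int.units_eq_one_or _).resolve_left hg
      have h2 := hθb g
      rw [hab, hg'] at h2
      push_cast at h2 ⊢
      rwa [mul_neg, mul_one, ← sub_eq_add_neg] at h2
    · intro H _ Y hY
      have h1 := (hθs H Y hY).const_mul ((Nat.card H : ℝ)⁻¹)
      rw [hHsum] at h1
      have e : (Nat.card H : ℝ)⁻¹ * (((a + b * (if (∀ h ∈ H, Equiv.Perm.sign h = 1) then 1 else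
          0) : ℤ) : ℝ) * Nat.card H) =
          ((a + b * (if (∀ h ∈ H, Equiv.Perm.sign h = 1) then 1 else 0) : ℤ) : ℝ) := by
        rw [mul_comm, mul_assoc, mul_inv_cancel₀ (hne H), mul_one]
      rw [e] at h1
      refine h1.congr fun ε => ?_
      rw [inv_mul_cancel_left₀ (hne H)]
  refine ⟨fun M _ hM B hB => ?_, ?_⟩
  · obtain ⟨H, hH⟩ : ∃ H, M = MH K F H := ⟨_, eq_MH K F hM⟩
    subst hH
    have hsz' := hsz (MH K F H) B (fun _ => 1) hB
    have hiff : (∀ h ∈ H, Equiv.Perm.sign h = 1) ↔ quadField K F ≤ MH K F H := by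
      have h3 : quadField K F =
          MH K F (Equiv.Perm.sign (α := F →ₐ[K] AlgebraicClosure K)).ker := rfl
      rw [h3]
      constructor
      · intro h
        exact IntermediateField.fixedField_antitone (Subgroup.comap_mono h)
      · intro h g hg
        obtain ⟨σ, rfl⟩ := hF g
        have h4 := IntermediateField.fixingSubgroup_antitone h
        rw [fix_MH, fix_MH] at h4
        exact h4 (show σ ∈ H.comap (act K F) from hg)
    have hlimM : Tendsto (size i B) (𝓝[>] 0) (𝓝 (-(expected F m (MH K F H) : ℝ))) := by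
      unfold expected
      rw [tendsto_iff_ultrafilter]
      intro 𝒰 h𝒰
      obtain ⟨a, b, h1, h2, -, -, h3⟩ := core 𝒰 h𝒰
      have h4 := h3 H (size i B) hsz'.2
      convert h4 using 2
      by_cases hQ : quadField K F ≤ MH K F H
      · rw [if_pos hQ, if_pos (hiff.2 hQ), h1]
        push_cast
        ring
      · rw [if_neg hQ, if_neg (fun h => hQ (hiff.1 h)), h2, if_neg]
        · push_cast
          ring
        · intro h
          exact hQ (hiff.1 fun g hg => h g trivial)
    refine ⟨hsz'.1, hlimM, fun k hk => ?_⟩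
    have h5 := neg_injective (tendsto_nhds_unique (hlim (MH K F H) B hB k hk) hlimM)
    exact_mod_cast h5
  · obtain ⟨a, b, h1, h2, h3, h4, -⟩ := core (Ultrafilter.of (𝓝[>] 0)) (Ultrafilter.of_le _)
    have hbd : ((|m ⊤| + |m ⊥ - m ⊤| : ℤ) : ℝ) ≤ N := by
      by_cases hall : ∀ g : PX K F, Equiv.Perm.sign g = 1
      · rw [if_pos fun g _ => hall g, mul_one] at h2
        rw [h1, h2, sub_self, abs_zero, add_zero, abs_neg]
        exact_mod_cast h3
      · have hall' : ¬ ∀ g ∈ (⊤ : Subgroup (PX K F)), Equiv.Perm.sign g = 1 := fun h =>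
          hall fun g => h g trivial
        rw [if_neg hall', mul_zero, add_zero] at h2
        push Not at hall
        have h5 := h4 hall
        rw [h1, h2]
        have e : -(a + b) - -a = -b := by ring
        rw [e, abs_neg, abs_neg]
        push_cast at h3 h5 ⊢
        rcases abs_cases (a : ℝ) with ⟨g3, -⟩ | ⟨g3, -⟩ <;>
          rcases abs_cases (b : ℝ) with ⟨g4, -⟩ | ⟨g4, -⟩ <;> rw [g3, g4] <;>
          rcases abs_le.1 h3 with ⟨g5, g6⟩ <;> rcases abs_le.1 h5 with ⟨g7, g8⟩ <;> linarith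
    exact_mod_cast hbd

open Classical in
open Pool.Agent.W353.SN in
/-- Betti number at most one: no condition on the degree -/
theorem sym_one (N : ℕ) (hN : N ≤ 1) (K : Type) [Field K] [NumberField K] (n d i : ℕ)
    (X : Set (MvPolynomial (Fin n) (𝓞 K))) (hi : i ≤ 2 * d) :
    SymmetricFields X d i N 0 := by
  refine sym_of N 0 (fun Y _ _ _ θ hcl hys hb => ?_) K n d i X hi
  exact main_small hcl hys.ymean (B := 1) (by norm_num) fun g => (hb g).trans (by exact_mod_cast hN)

open Classical in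
open Pool.Agent.W353.SN in
/-- Betti number at most two: degree at least eight -/
theorem sym_two (N : ℕ) (hN : N ≤ 2) (K : Type) [Field K] [NumberField K] (n d i : ℕ)
    (X : Set (MvPolynomial (Fin n) (𝓞 K))) (hi : i ≤ 2 * d) :
    SymmetricFields X d i N 8 := by
  refine sym_of N 8 (fun Y _ _ h8 θ hcl hys hb => ?_) K n d i X hi
  exact main_two hcl hys.ymean h8 fun g => (hb g).trans (by exact_mod_cast hN)

end Pool.Agent.Y328.EF2
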